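import Pool.Agent.Helper19.HM.Goals
import Pool.Agent.Helper12.SQ.HAI

/-!
# Project SQ, lower half of Haiman, module block, packet SGM: the multiplicity of the sign
-/

set_option autoImplicit false

namespace Pool.Agent.Helper66.HM

noncomputable section

open Pool.Agent.Helper19.HM Module

variable {n : ℕ} {V : Type} [AddCommGroup V] [Module ℂ V]

/-- the sign as a complex number -/
def sg (g : Equiv.Perm (Fin n)) : ℂ := ((Equiv.Perm.sign g : ℤ) : ℂ)

lemma sg_mul (g h : Equiv.Perm (Fin n)) : sg (g * h) = sg g * sg h := by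
  unfold sg
  rw [Equiv.Perm.sign_mul]
  push_cast
  rfl

lemma sg_one : sg (1 : Equiv.Perm (Fin n)) = 1 := by
  unfold sg
  rw [Equiv.Perm.sign_one]
  norm_num

lemma sg_sq (g : Equiv.Perm (Fin n)) : sg g * sg g = 1 := by
  unfold sg
  rcases Int.units_eq_one_or (Equiv.Perm.sign g) with h | h
  · rw [h]
    norm_num
  · rw [h]
    norm_num

/-- the twisted representation -/
def rho (H : HMod n V) : Representation ℂ (Equiv.Perm (Fin n)) V where
  toFun g := sg g • H.s g
  map_one' := by
    rw [sg_one, one_smul, H.s_one]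
  map_mul' g h := by
    rw [sg_mul, H.s_mul, smul_mul_smul_comm]

lemma rho_apply (H : HMod n V) (g : Equiv.Perm (Fin n)) (v : V) :
    rho H g v = sg g • H.s g v := rfl

lemma rho_eq (H : HMod n V) (g : Equiv.Perm (Fin n)) : rho H g = sg g • H.s g := rfl

lemma inv_eq (H : HMod n V) : (rho H).invariants = H.sg := by
  ext v
  rw [Representation.mem_invariants]
  have hm : v ∈ H.sg ↔ ∀ g : Equiv.Perm (Fin n), H.s g v = sg g • v := Iff.rfl
  rw [hm]
  refine forall_congr' (fun g => ?_)
  rw [rho_apply]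
  constructor
  · intro h
    rw [← h, smul_smul, sg_sq, one_smul, h]
  · intro h
    rw [h, smul_smul, sg_sq, one_smul]

lemma rank_formula [FiniteDimensional ℂ V] (H : HMod n V) :
    ((Nat.factorial n : ℕ) : ℂ) * (finrank ℂ H.sg : ℂ) =
      ∑ g : Equiv.Perm (Fin n), sg g * LinearMap.trace ℂ V (H.s g) := by
  classical
  have hcard : (Fintype.card (Equiv.Perm (Fin n)) : ℂ) = ((Nat.factorial n : ℕ) : ℂ) := by
    rw [Fintype.card_perm, Fintype.card_fin]
  have hne : (Fintype.card (Equiv.Perm (Fin n)) : ℂ) ≠ 0 := by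
    rw [hcard]
    exact_mod_cast Nat.factorial_ne_zero n
  let _ := invertibleOfNonzero hne
  have h1 := (Representation.isProj_averageMap (rho H)).trace
  have h2 : (rho H).averageMap = ⅟(Fintype.card (Equiv.Perm (Fin n)) : ℂ) •
      ∑ g : Equiv.Perm (Fin n), rho H g := by
    unfold Representation.averageMap GroupAlgebra.average
    rw [map_smul, map_sum]
    simp only [Representation.asAlgebraHom_of]
  rw [h2, map_smul, map_sum, smul_eq_mul] at h1
  have h3 : ∀ g : Equiv.Perm (Fin n), LinearMap.trace ℂ V (rho H g) =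
      sg g * LinearMap.trace ℂ V (H.s g) := by
    intro g
    rw [rho_eq, map_smul, smul_eq_mul]
  rw [← Finset.sum_congr rfl (fun g _ => h3 g), ← inv_eq, ← h1, ← mul_assoc, ← hcard,
    mul_invOf_self, one_mul]

theorem c_sgm (hchr : S_CHR) : S_SGM := by
  intro n V _ _ _ H hn
  have h1 := rank_formula H
  have h2 := Pool.Agent.Helper12.SQ.signed_count (n := n) (κ := Fin (n + 1))
  have h3 : ((n : ℂ) + 1) ^ n * (((Nat.factorial n : ℕ) : ℂ) * (finrank ℂ H.sg : ℂ)) =
      (finrank ℂ V : ℂ) * ((((Fintype.card (Fin (n + 1))).descFactorial n : ℕ) : ℤ) : ℂ) := by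
    rw [h1, ← h2, Finset.mul_sum, Int.cast_sum, Finset.mul_sum]
    refine Finset.sum_congr rfl (fun g _ => ?_)
    have h4 := hchr n V H hn g
    rw [mul_left_comm, h4]
    unfold fx sg
    push_cast
    ring
  rw [Fintype.card_fin, Nat.descFactorial_eq_factorial_mul_choose, Nat.choose_succ_self_right,
    Int.cast_natCast] at h3
  have h5 : (n + 1) ^ n * (n.factorial * finrank ℂ H.sg) =
      finrank ℂ V * (n.factorial * (n + 1)) := by
    have h6 : (((n + 1) ^ n * (n.factorial * finrank ℂ H.sg) : ℕ) : ℂ) =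
        ((finrank ℂ V * (n.factorial * (n + 1)) : ℕ) : ℂ) := by
      push_cast
      push_cast at h3
      rw [h3]
    exact_mod_cast h6
  have h7 : (n + 1) ^ n = (n + 1) ^ (n - 1) * (n + 1) := by
    rw [← pow_succ]
    congr 1
    omega
  have h8 : (n.factorial * (n + 1)) * ((n + 1) ^ (n - 1) * finrank ℂ H.sg) =
      (n.factorial * (n + 1)) * finrank ℂ V := by
    rw [h7] at h5
    linarith
  exact Nat.eq_of_mul_eq_mul_left (Nat.mul_pos (Nat.factorial_pos n) (Nat.succ_pos n)) h8

end

end Pool.Agent.Helper66.HM
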